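import Mathlib
import Pool.Agent.H297R2.LPM.ExpPi

/-!
# `e^{π²}` is not of the form `e^r 2^s` with `r, s` rational, quantitatively
-/

namespace Pool.Agent.Results.MP_0c330e_nt.PowersOfTwo

/-- **Main result.** -/
theorem result : ∃ c : ℝ, 0 < c ∧ ∀ (a p : ℤ) (q : ℕ), 1 ≤ q →
    c / (max |(p : ℝ)| (q : ℝ)) ^ 224 ≤
      |Real.exp (Real.pi ^ 2) - Real.exp ((a : ℝ) / q) * (2 : ℝ) ^ ((p : ℝ) / q)| :=
  Pool.Agent.LP.MS.exp_measure

end Pool.Agent.Results.MP_0c330e_nt.PowersOfTwo
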